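import Pool.Agent.helper77.BND.SpecD

/-!
# Project bnd, row LPX: the coordinates of a point below a floor
-/

set_option autoImplicit false

open scoped Topology
open Finset

namespace Pool.Agent.BND

open Pool.Agent.CZ Pool.Agent.PV

theorem LPX (hWDC : WDC_stmt) : LPX_stmt := by
  intro B M hB x k d
  induction d with
  | zero =>
    intro e s i _ _ _ hx
    exact hx
  | succ d ih =>
    intro e s i he hs hi hx
    have he' : e < (B.L (k + d + 1)).N := he
    have hi' : i < (B.L (k + d + 1)).h e := hi
    have hx' : x.1 (k + d + 1) = emb (B.L (k + d + 1)) e s i := hx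
    have h1 : x.1 (k + d) = B.st (k + d) e s i := (x.2 (k + d)).2 e s i he' hs hi' hx'
    have h2 : i < hw (B.L (k + d)).h (B.w (k + d) e s) := by
      rw [hB.htw (k + d) e s he' hs]
      exact hi'
    obtain ⟨P, a, Q, j, hw1, hj, _, hfw⟩ := hWDC (B.L (k + d)).h (B.w (k + d) e s) i h2
    have ha : a ∈ B.w (k + d) e s := by
      rw [hw1]
      simp
    obtain ⟨ha1, ha2⟩ := hB.lett (k + d) e s he' hs a ha
    have h3 : x.1 (k + d) = emb (B.L (k + d)) a.1 a.2 j := by
      rw [h1]
      exact hfw Am (emb (B.L (k + d)))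
    rw [ih a.1 a.2 j ha1 ha2 hj h3]
    exact (hfw Am (B.lp k d)).symm

end Pool.Agent.BND
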