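import Pool.Agent.helper77.BND.SpecD

/-!
# Project bnd, row SBB: the small boundary property
-/

set_option autoImplicit false

open scoped Topology
open Finset Filter

namespace Pool.Agent.BND

open Pool.Agent.CZ Pool.Agent.PV

theorem SBB_mem (B : BS) (x : ↥(XS B)) (m : ℕ) : x.1 m ∈ FS (B.L m) := (x.2 m).1

theorem SBB_step (B : BS) (p : ℕ → Am → Am) (hp : IsMp B B.st p) (x : ↥(XS B)) (m : ℕ) :
    x.1 m = p m (x.1 (m + 1)) := by
  obtain ⟨e, s, i, he, hs, hi, hx⟩ := SBB_mem B x (m + 1)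
  rw [(x.2 m).2 e s i he hs hi hx, hx, hp.val m e s i he hs hi]

theorem SBB_proj (B : BS) (p : ℕ → Am → Am) (hp : IsMp B B.st p) (i d : ℕ) :
    ∃ P : Am → Am, ContinuousOn P (FS (B.L (i + d))) ∧ ∀ z : ↥(XS B), z.1 i = P (z.1 (i + d)) := by
  induction d with
  | zero => exact ⟨id, continuousOn_id, fun z => rfl⟩
  | succ d ih =>
    obtain ⟨P, hP, hz⟩ := ih
    refine ⟨fun y => P (p (i + d) y), ?_, fun z => ?_⟩
    · exact hP.comp (hp.cont (i + d)) (hp.maps (i + d))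
    · rw [hz z, SBB_step B p hp z (i + d)]
      rfl

theorem SBB_nhds (B : BS) (p : ℕ → Am → Am) (hp : IsMp B B.st p) (x : ↥(XS B)) (G : Set ↥(XS B)) (hG : G ∈ 𝓝 x) :
    ∃ (k : ℕ) (O : Set Am), IsOpen O ∧ x.1 k ∈ O ∧ ∀ z : ↥(XS B), z.1 k ∈ O → z ∈ G := by
  have h1 : 𝓝 x = ⨅ i : ℕ, comap (fun z : ↥(XS B) => z.1 i) (𝓝 (x.1 i)) := by
    rw [nhds_subtype, nhds_pi, Filter.pi, Filter.comap_iInf]
    refine iInf_congr fun i => ?_
    rw [Filter.comap_comap]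
    rfl
  have hle : ∀ i d : ℕ, comap (fun z : ↥(XS B) => z.1 (i + d)) (𝓝 (x.1 (i + d))) ≤
      comap (fun z : ↥(XS B) => z.1 i) (𝓝 (x.1 i)) := by
    intro i d
    obtain ⟨P, hP, hz⟩ := SBB_proj B p hp i d
    rw [← Filter.tendsto_iff_comap]
    have h2 : Tendsto P (𝓝[FS (B.L (i + d))] (x.1 (i + d))) (𝓝 (P (x.1 (i + d)))) :=
      hP _ (SBB_mem B x (i + d))
    have h3 : Tendsto (fun z : ↥(XS B) => z.1 (i + d)) (comap (fun z : ↥(XS B) => z.1 (i + d)) (𝓝 (x.1 (i + d))))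
        (𝓝[FS (B.L (i + d))] (x.1 (i + d))) :=
      tendsto_nhdsWithin_iff.2 ⟨tendsto_comap, Eventually.of_forall fun z => SBB_mem B z (i + d)⟩
    have h4 := h2.comp h3
    rw [← hz x] at h4
    exact h4.congr fun z => (hz z).symm
  have hdir : Directed (· ≥ ·) fun i : ℕ => comap (fun z : ↥(XS B) => z.1 i) (𝓝 (x.1 i)) := by
    intro i j
    refine ⟨i + j, hle i j, ?_⟩
    have := hle j i
    rw [add_comm j i] at this
    exact this
  rw [h1, Filter.mem_iInf_of_directed hdir] at hG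
  obtain ⟨k, hk⟩ := hG
  obtain ⟨O', hO', hsub⟩ := Filter.mem_comap.1 hk
  obtain ⟨O, hO1, hO2, hO3⟩ := mem_nhds_iff.1 hO'
  exact ⟨k, O, hO2, hO3, fun z hz => hsub (hO1 hz)⟩

theorem SBB (hSBN : SBN_stmt) (hSBT : SBT_stmt) (hPMA : PMA_stmt) (hEMC : EMC_stmt) : SBB_stmt := by
  intro B M hB α hα hαI x G hG
  obtain ⟨p, q, r, hp, _, _⟩ := hPMA B M hB
  obtain ⟨k, O, hO, hxO, hOG⟩ := SBB_nhds B p hp x G hG
  obtain ⟨Bad, hBad, hnull⟩ := hSBN B M hB α hα hαI k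
  obtain ⟨f, hf, hf1, hfle, T, hT, hTF⟩ := hSBT (B.L k) (hB.lv k) Bad hBad (x.1 k) (SBB_mem B x k)
  have hcpt : IsCompact (FS (B.L k) ∩ Oᶜ) := (hEMC (B.L k) (hB.lv k)).inter_right hO.isClosed_compl
  have hc0 : ∃ c₀ : ℝ, c₀ < 1 ∧ ∀ y ∈ FS (B.L k) ∩ Oᶜ, f y ≤ c₀ := by
    by_cases hne : (FS (B.L k) ∩ Oᶜ).Nonempty
    · obtain ⟨y, hy, hmax⟩ := hcpt.exists_isMaxOn hne (hf.mono Set.inter_subset_left)
      refine ⟨f y, lt_of_le_of_ne (hfle y hy.1).1 fun h => ?_, fun z hz => hmax hz⟩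
      have := (hfle y hy.1).2 h
      rw [this] at hy
      exact hy.2 hxO
    · exact ⟨0, zero_lt_one, fun y hy => absurd ⟨y, hy⟩ hne⟩
  obtain ⟨c₀, hc1, hc2⟩ := hc0
  obtain ⟨c, hcI, hcT⟩ := (Set.Countable.dense_compl ℝ hT).inter_open_nonempty (Set.Ioo (max c₀ 0) 1) isOpen_Ioo
    (Set.nonempty_Ioo.2 (max_lt hc1 zero_lt_one))
  have hcc0 : c₀ < c := (le_max_left _ _).trans_lt hcI.1
  have hcp : 0 < c := (le_max_right _ _).trans_lt hcI.1
  obtain ⟨F, hF1, hF2⟩ := hTF c hcp hcI.2 hcT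
  have hg : Continuous fun z : ↥(XS B) => f (z.1 k) :=
    hf.comp_continuous ((continuous_apply k).comp continuous_subtype_val) fun z => SBB_mem B z k
  refine ⟨{z | c < f (z.1 k)}, isOpen_lt continuous_const hg, ?_, ?_, ?_⟩
  · show c < f (x.1 k)
    rw [hf1]
    exact hcI.2
  · intro z hz
    by_contra hzG
    have h1 : z.1 k ∉ O := fun h => hzG (hOG z h)
    have h2 := hc2 (z.1 k) ⟨SBB_mem B z k, h1⟩
    have h3 : c < f (z.1 k) := hz
    linarith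
  · intro _ _ μ hμ hinv
    refine MeasureTheory.measure_mono_null (t := ⋃ y ∈ F, {z : ↥(XS B) | z.1 k = y}) ?_ ?_
    · intro z hz
      have h1 : c = f (z.1 k) := frontier_lt_subset_eq continuous_const hg hz
      have h2 := hF2 (z.1 k) (SBB_mem B z k) h1.symm
      exact Set.mem_biUnion (x := z.1 k) h2 rfl
    · refine (MeasureTheory.measure_biUnion_null_iff (s := fun y : Am => {z : ↥(XS B) | z.1 k = y})
        F.countable_toSet).2 ?_
      intro y hy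
      obtain ⟨e, s, i, h1, h2, h3, h4, h5, h6, h7⟩ := hF1 y hy
      rw [h7]
      exact hnull e s i h1 h2 h3 h4 h5 h6 μ hμ hinv

end Pool.Agent.BND
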