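import Pool.Agent.helper53.BND.SpecT

/-!
# Project bnd, row TBK: Birkhoff sums and blocks
-/

set_option autoImplicit false

open scoped Topology
open Finset Filter

namespace Pool.Agent.BND

open Pool.Agent.CZ Pool.Agent.PV Pool.Agent.PVH

theorem TBK_pow_succ {X : Type} [TopologicalSpace X] (α : X ≃ₜ X) (j : ℕ) (y : X) :
    (α ^ (j + 1)) y = α ((α ^ j) y) := by
  rw [pow_succ']
  rfl

theorem TBK_pow_add {X : Type} [TopologicalSpace X] (α : X ≃ₜ X) (i j : ℕ) (y : X) :
    (α ^ (i + j)) y = (α ^ j) ((α ^ i) y) := by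
  rw [add_comm, pow_add]
  rfl

theorem TBK_zpow {X : Type} [TopologicalSpace X] (α : X ≃ₜ X) (i j : ℕ) (y : X) :
    (α ^ (i + j)) ((α ^ (((0 : ℕ) : ℤ) - i)) y) = (α ^ j) y := by
  have h1 : α ^ (i + j) * α ^ (((0 : ℕ) : ℤ) - i) = α ^ j := by
    rw [← zpow_natCast, ← zpow_natCast, ← zpow_add]
    congr 1
    push_cast
    ring
  rw [← h1]
  rfl

theorem TBK_bd {X : Type} (g : ℕ → X) (f : X → ℝ) (C : ℝ) (hC : ∀ y, |f y| ≤ C) (n : ℕ) :
    |∑ j ∈ range n, f (g j)| ≤ n * C := by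
  refine (Finset.abs_sum_le_sum_abs _ _).trans ?_
  refine (Finset.sum_le_sum fun j _ => hC (g j)).trans ?_
  simp

theorem TBK (hSUC : SUC_stmt) (hBLK : BLK_stmt) (hLPX : LPX_stmt) : TBK_stmt := by
  intro B M hB α hα hαI k d F f C R hf hC hR
  obtain ⟨A, hA⟩ : ∃ A : ℕ, A = ∑ e ∈ range (B.L (k + d)).N, (B.L (k + d)).h e := ⟨_, rfl⟩
  have hAe : ∀ e, e < (B.L (k + d)).N → ((B.L (k + d)).h e : ℝ) ≤ A := by
    intro e he
    rw [hA]
    exact_mod_cast Finset.single_le_sum (f := fun e => (B.L (k + d)).h e) (fun i _ => Nat.zero_le _)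
      (Finset.mem_range.2 he)
  have hmain : ∀ (n : ℕ) (y : ↥(XS B)) (e : ℕ) (s : ℝ), Can (B.L (k + d)) e s → y.1 (k + d) = emb (B.L (k + d)) e s 0 →
      ∑ j ∈ range n, f ((α ^ j) y) ≤ n * R + (C + |R|) * A := by
    intro n
    induction n using Nat.strong_induction_on with
    | _ n ih =>
      intro y e s hcan hy
      have hC0 : 0 ≤ C := (abs_nonneg _).trans (hC y)
      have hR0 : 0 ≤ |R| := abs_nonneg R
      have hRR : -|R| ≤ R := neg_abs_le R
      have hhe := hAe e hcan.1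
      by_cases hn : n < (B.L (k + d)).h e
      · have h1 := (le_abs_self _).trans (TBK_bd (fun j => (α ^ j) y) f C hC n)
        have h2 : (n : ℝ) ≤ A := by
          have : (n : ℝ) < (B.L (k + d)).h e := by exact_mod_cast hn
          linarith
        have h3 : (0 : ℝ) ≤ n := Nat.cast_nonneg n
        have h4 : (n : ℝ) * (C + |R|) ≤ A * (C + |R|) := mul_le_mul_of_nonneg_right h2 (by linarith)
        have h5 : (n : ℝ) * (-|R|) ≤ n * R := mul_le_mul_of_nonneg_left hRR h3
        linarith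
      · have hn' : (B.L (k + d)).h e ≤ n := not_lt.1 hn
        have hpos : 0 < (B.L (k + d)).h e := (hB.lv (k + d)).pos e hcan.1
        have hfl : ∀ j, j < (B.L (k + d)).h e → ((α ^ j) y).1 (k + d) = emb (B.L (k + d)) e s j := by
          intro j
          induction j with
          | zero =>
            intro _
            rw [pow_zero]
            exact hy
          | succ j ihj =>
            intro hj
            rw [TBK_pow_succ]
            exact (hSUC B M hB α hα hαI ((α ^ j) y) (k + d) e s j hcan (by omega) (ihj (by omega))).1 hj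
        have hsum1 : ∑ j ∈ range ((B.L (k + d)).h e), f ((α ^ j) y) ≤ R * (B.L (k + d)).h e := by
          refine le_trans (le_of_eq ?_) (hR e s hcan)
          refine Finset.sum_congr rfl fun j hj => ?_
          rw [hf, hLPX B M hB ((α ^ j) y) k d e s j hcan.1 hcan.2.2 (Finset.mem_range.1 hj)
            (hfl j (Finset.mem_range.1 hj))]
        obtain ⟨h₀, hh₀⟩ : ∃ h₀, h₀ + 1 = (B.L (k + d)).h e := ⟨(B.L (k + d)).h e - 1, by omega⟩
        obtain ⟨e', s', hcan', hy'⟩ := (hSUC B M hB α hα hαI ((α ^ h₀) y) (k + d) e s h₀ hcan (by omega)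
          (hfl h₀ (by omega))).2.1 hh₀
        rw [← TBK_pow_succ, hh₀] at hy'
        have h1 := ih (n - (B.L (k + d)).h e) (by omega) ((α ^ ((B.L (k + d)).h e)) y) e' s' hcan' hy'
        have h2 : ∑ j ∈ range n, f ((α ^ j) y) = ∑ j ∈ range ((B.L (k + d)).h e), f ((α ^ j) y) +
            ∑ j ∈ range (n - (B.L (k + d)).h e), f ((α ^ j) ((α ^ ((B.L (k + d)).h e)) y)) := by
          have h3 : n = (B.L (k + d)).h e + (n - (B.L (k + d)).h e) := by omega
          conv_lhs => rw [h3]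
          rw [Finset.sum_range_add]
          congr 1
          refine Finset.sum_congr rfl fun j _ => ?_
          rw [TBK_pow_add]
        have h4 : ((n - (B.L (k + d)).h e : ℕ) : ℝ) = (n : ℝ) - (B.L (k + d)).h e := by
          rw [Nat.cast_sub hn']
        rw [h4] at h1
        rw [h2]
        linarith
  refine ⟨2 * (C + |R|) * A, fun y n => ?_⟩
  have hC0 : 0 ≤ C := (abs_nonneg _).trans (hC y)
  have hR0 : 0 ≤ |R| := abs_nonneg R
  have hRR : R ≤ |R| := le_abs_self R
  obtain ⟨e, s, i, hcan, hi, hy, hblk⟩ := hBLK B M hB α hα hαI y (k + d)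
  have hz := hblk 0 ((hB.lv (k + d)).pos e hcan.1)
  have h1 := hmain (i + n) ((α ^ (((0 : ℕ) : ℤ) - i)) y) e s hcan hz
  rw [Finset.sum_range_add] at h1
  have h2 : ∑ j ∈ range n, f ((α ^ (i + j)) ((α ^ (((0 : ℕ) : ℤ) - i)) y)) = ∑ j ∈ range n, f ((α ^ j) y) :=
    Finset.sum_congr rfl fun j _ => by rw [TBK_zpow]
  rw [h2] at h1
  have h3 : -((i : ℝ) * C) ≤ ∑ j ∈ range i, f ((α ^ j) ((α ^ (((0 : ℕ) : ℤ) - i)) y)) :=
    neg_le_of_abs_le (TBK_bd (fun j => (α ^ j) ((α ^ (((0 : ℕ) : ℤ) - i)) y)) f C hC i)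
  have h4 : (i : ℝ) ≤ A := by
    have h5 : (i : ℝ) < (B.L (k + d)).h e := by exact_mod_cast hi
    have h6 := hAe e hcan.1
    linarith
  have h7 : (i : ℝ) * (C + |R|) ≤ A * (C + |R|) := mul_le_mul_of_nonneg_right h4 (by linarith)
  have h8 : (i : ℝ) * R ≤ i * |R| := mul_le_mul_of_nonneg_left hRR (Nat.cast_nonneg i)
  rw [Nat.cast_add] at h1
  linarith

end Pool.Agent.BND
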